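import Pool.Agent.Helper99.SC.GeoStmts
set_option autoImplicit false
set_option maxHeartbeats 400000
namespace Pool.Agent.Helper99.SC.CPD
open Pool.Agent.Helper99.SC
variable {ops : List Op} {X : ℕ → ℕ → Bool} {K : ℕ}
lemma opAt_cases (hv : ∀ o ∈ ops, o.Valid K) (i : ℕ) :
    ((opAt ops i).1 = 9 ∧ (i = 0 ∨ ops.length < i)) ∨
    (1 ≤ i ∧ i ≤ ops.length ∧ (opAt ops i).1 < 4 ∧ (opAt ops i).2 < K ∧
      ((opAt ops i).1 = 1 → (opAt ops i).2 + 1 < K) ∧ ((opAt ops i).1 = 2 → 0 < (opAt ops i).2)) := by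
  by_cases h0 : i = 0
  · left; simp [opAt, h0]
  by_cases hL : i ≤ ops.length
  · right
    have hi : i - 1 < ops.length := by omega
    have he : opAt ops i = ops[i - 1] := by
      simp only [opAt, if_neg h0]
      rw [List.getD_eq_getElem _ _ hi]
    have hm := hv _ (List.getElem_mem hi)
    rw [he]
    exact ⟨by omega, hL, hm⟩
  · left
    refine ⟨?_, Or.inr (by omega)⟩
    simp only [opAt, if_neg h0]
    rw [List.getD_eq_default _ _ (by omega)]

lemma run_facts (hr : IsRun ops X K) {i : ℕ} (h1 : 1 ≤ i) (h2 : i ≤ ops.length) :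
    ((opAt ops i).1 = 0 → ∀ j < K, j ≠ (opAt ops i).2 → X i j = X (i - 1) j) ∧
    ((opAt ops i).1 = 1 → (∀ j < K, X i j = X (i - 1) j) ∧
      X (i - 1) (opAt ops i).2 = X (i - 1) ((opAt ops i).2 + 1)) ∧
    ((opAt ops i).1 = 2 → ∀ j < K, j ≠ (opAt ops i).2 → X i j = X (i - 1) j) ∧
    ((opAt ops i).1 = 3 → (∀ j < K, X i j = X (i - 1) j) ∧ X (i - 1) (opAt ops i).2 = false) := by
  have h := hr (i - 1) (by omega)
  have he : ops.getD (i - 1) (9, 0) = opAt ops i := by
    simp only [opAt, if_neg (by omega : ¬ i = 0)]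
  rw [he, show i - 1 + 1 = i by omega] at h
  rcases ho : opAt ops i with ⟨c, k⟩
  rw [ho] at h
  refine ⟨?_, ?_, ?_, ?_⟩
  · rintro hc
    simp only at hc
    subst hc
    exact h
  · rintro hc
    simp only at hc
    subst hc
    exact h
  · rintro hc
    simp only at hc
    subst hc
    exact h.1
  · rintro hc
    simp only at hc
    subst hc
    exact h

lemma HR_src {i r k l : ℕ} {t : Pl} (h : HR ops (i, r, k, l) t) :
    (r = 1 ∧ (l = 0 ∨ l = 1)) ∨ (r = 2 ∧ (l = 0 ∨ l = 1 ∨ l = 6 ∨ l = 7)) ∨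
      (r = 3 ∧ (l = 4 ∨ l = 5)) := by
  simp only [HR] at h
  rcases h.2 with ⟨_, _, _, h1 | h1 | h1⟩ | ⟨_, _, _, h1 | h1 | h1⟩ | ⟨_, h1 | h1 | h1⟩
  · exact Or.inl ⟨h1.1, h1.2.1⟩
  · refine Or.inr (Or.inl ⟨h1.1, ?_⟩)
    rcases h1.2.1 with h | h | h <;> simp [h]
  · refine Or.inr (Or.inl ⟨h1.1, ?_⟩)
    simp [h1.2.1]
  · refine Or.inr (Or.inl ⟨h1.1, ?_⟩)
    rcases h1.2.1 with h | h | h <;> simp [h]
  · refine Or.inr (Or.inl ⟨h1.1, ?_⟩)
    simp [h1.2.1]
  · exact Or.inr (Or.inr ⟨h1.1, h1.2.1⟩)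
  · refine Or.inr (Or.inl ⟨h1.1, h1.2.1⟩)
  · refine Or.inr (Or.inr ⟨h1.1, ?_⟩)
    rcases h1.2.2.2 with h | h
    · exact Or.inl h.1
    · exact Or.inr h.1
  · refine Or.inl ⟨h1.1, ?_⟩
    rcases h1.2.2 with h | h
    · exact Or.inr h.1
    · exact Or.inl h.1

lemma HR_tgt {i r k l : ℕ} {s : Pl} (h : HR ops s (i, r, k, l)) :
    (r = 1 ∧ l = 4) ∨ (r = 3 ∧ l = 1) ∨ IsTT ops (i, r, k, l) := by
  simp only [HR] at h
  rcases h.2 with h1 | h1 | h1
  · exact Or.inl ⟨h1.1, h1.2.1⟩
  · exact Or.inr (Or.inl ⟨h1.1, h1.2.1⟩)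
  · exact Or.inr (Or.inr h1.1)


/-- classification of the sources -/
lemma src {b : Bool} {i r k l : ℕ} {t : Pl}
    (h : Pg ops X b (i, r, k, l) t) :
    (r = 0 ∧ ((i = 0 ∧ k = 0 ∧ l = 1 ∧ b = true) ∨ (i = 0 ∧ k = 0 ∧ l = 0) ∨
      ((opAt ops i).1 = 2 ∧ k = (opAt ops i).2 ∧ l = 1 ∧ b = X i (k - 1)) ∨
      ((opAt ops i).1 = 3 ∧ (l = 6 ∨ l = 9) ∧ b = !X i k) ∨
      ((opAt ops i).1 = 3 ∧ l = 5) ∨
      (l = 0 ∧ ((opAt ops i).1 = 0 ∨ ((opAt ops i).1 = 1 ∧ k ≠ (opAt ops i).2 + 1) ∨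
        ((opAt ops i).1 = 2 ∧ k ≠ (opAt ops i).2))))) ∨
    (r = 1 ∧ l ≤ 2) ∨ (r = 2 ∧ (l ≤ 2 ∨ 6 ≤ l)) ∨ (r = 3 ∧ (l = 0 ∨ 4 ≤ l)) := by
  obtain ⟨i', r', k', l'⟩ := t
  rcases h with h | h | h | h | h
  · rcases HR_src h.1 with ⟨h1, h2⟩ | ⟨h1, h2⟩ | ⟨h1, h2⟩
    · exact Or.inr (Or.inl ⟨h1, by clear h; omega⟩)
    · exact Or.inr (Or.inr (Or.inl ⟨h1, by clear h; omega⟩))
    · exact Or.inr (Or.inr (Or.inr ⟨h1, by clear h; omega⟩))
  · have h1 := h.1
    clear h
    simp only [HY] at h1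
    obtain ⟨_, _, _, _, h1 | h1 | h1 | h1⟩ := h1
    · exact Or.inr (Or.inl ⟨h1.1, by omega⟩)
    · exact Or.inr (Or.inr (Or.inl ⟨h1.1, by omega⟩))
    · exact Or.inr (Or.inr (Or.inl ⟨h1.1, by omega⟩))
    · exact Or.inr (Or.inr (Or.inr ⟨h1.1, by omega⟩))
  · obtain ⟨h, h'⟩ := h
    simp only [HT, Prod.ext_iff] at h h'
    left
    obtain ⟨_, hr, _, _, h⟩ := h
    refine ⟨hr, ?_⟩
    rcases h' with ⟨h1, h2⟩ | ⟨h1, h2⟩
    · right; right; left
      rcases h with ⟨h3, h4, _⟩ | ⟨h3, _⟩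
      · exact ⟨h1, h3.2.symm, h4, h2⟩
      · omega
    · right; right; right; left
      rcases h with ⟨h3, h4, _⟩ | ⟨h3, h4⟩
      · omega
      · refine ⟨h1, ?_, h2⟩
        rcases h4 with h4 | h4
        · exact Or.inl h4.1
        · exact Or.inr h4.1
  · obtain ⟨h, h'⟩ := h
    simp only [HP, Prod.ext_iff] at h
    obtain ⟨⟨h1, h2, h3, h4⟩, _⟩ := h
    left
    exact ⟨h2, Or.inl ⟨h1, h3, h4, h'⟩⟩
  · have h1 := h.1
    clear h
    simp only [HD, Prod.ext_iff] at h1
    rcases h1 with h1 | ⟨h1, h2, ⟨_, _, h3 | h3 | h3⟩ | ⟨h3, h4 | h4 | h4 | h4 | h4 | h4⟩⟩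
    · left
      exact ⟨h1.1.2.1, Or.inr (Or.inl ⟨h1.1.1, h1.1.2.2.1, h1.1.2.2.2⟩)⟩
    · exact Or.inr (Or.inl ⟨h3.1, by omega⟩)
    · exact Or.inr (Or.inr (Or.inl ⟨h3.1, by omega⟩))
    · exact Or.inr (Or.inr (Or.inr ⟨h3.1, by omega⟩))
    · left
      exact ⟨h3, Or.inr (Or.inr (Or.inr (Or.inr (Or.inl ⟨h4.1, h4.2.2.1⟩))))⟩
    · left
      refine ⟨h3, Or.inr (Or.inr (Or.inr (Or.inr (Or.inr ⟨by omega, Or.inl h4.1⟩))))⟩
    · left
      refine ⟨h3, Or.inr (Or.inr (Or.inr (Or.inr (Or.inr ⟨by omega, Or.inr (Or.inl ⟨h4.1, by omega⟩)⟩))))⟩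
    · left
      refine ⟨h3, Or.inr (Or.inr (Or.inr (Or.inr (Or.inr ⟨by omega, Or.inr (Or.inl ⟨h4.1, by omega⟩)⟩))))⟩
    · left
      refine ⟨h3, Or.inr (Or.inr (Or.inr (Or.inr (Or.inr ⟨by omega, Or.inr (Or.inr ⟨h4.1, by omega⟩)⟩))))⟩
    · left
      refine ⟨h3, Or.inr (Or.inr (Or.inr (Or.inr (Or.inr ⟨by omega, Or.inr (Or.inr ⟨h4.1, by omega⟩)⟩))))⟩
lemma IsTT_iff {i r k l : ℕ} (h : IsTT ops (i, r, k, l)) :
    r = 0 ∧ ((l = 4 ∧ i ≤ ops.length) ∨ (l = 11 ∧ 1 ≤ i ∧ i ≤ ops.length + 1) ∨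
     (l = 8 ∧ (opAt ops i).1 = 2 ∧ (opAt ops i).2 = k) ∨
     (l = 3 ∧ (opAt ops i).1 = 3) ∨ (l = 12 ∧ (opAt ops i).1 = 3) ∨
     (l = 7 ∧ (opAt ops i).1 = 3 ∧ (opAt ops i).2 = k)) := by
  simpa only [IsTT, Prod.ext_iff] using h

/-- classification of the targets -/
lemma tgt {b : Bool} {i r k l : ℕ} {s : Pl}
    (h : Pg ops X b s (i, r, k, l)) :
    (r = 0 ∧ ((i = 0 ∧ k = 0 ∧ l = 2) ∨
      ((opAt ops i).1 = 3 ∧ k = (opAt ops i).2 ∧ l = 7 ∧ b = true) ∨
      ((opAt ops i).1 = 3 ∧ (l = 3 ∨ l = 4 ∨ l = 10 ∨ l = 11 ∨ l = 12)) ∨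
      ((opAt ops i).1 = 2 ∧ k = (opAt ops i).2 ∧ (l = 2 ∨ l = 4 ∨ l = 8 ∨ l = 11)) ∨
      ((opAt ops i).1 ≠ 3 ∧ ¬ ((opAt ops i).1 = 2 ∧ k = (opAt ops i).2) ∧
        ((l = 4 ∧ b = X i k) ∨ (l = 11 ∧ b = X (i - 1) k))) ∨
      (l = 13 ∧ ((opAt ops i).1 = 0 ∨ ((opAt ops i).1 = 1 ∧ k ≠ (opAt ops i).2) ∨
        ((opAt ops i).1 = 2 ∧ k ≠ (opAt ops i).2 ∧ k + 1 ≠ (opAt ops i).2))))) ∨
    (r = 1 ∧ (l = 5 ∨ b = !X i k)) ∨ (r = 2 ∧ (l = 5 ∨ b = X i k)) ∨
    (r = 3 ∧ (l = 3 ∨ b = !X i k)) := by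
  obtain ⟨i', r', k', l'⟩ := s
  rcases h with h | h | h | h | h
  · obtain ⟨h, h'⟩ := h
    have hT := HR_tgt h
    clear h
    simp only [Prod.ext_iff] at h'
    rcases h' with h' | h' | h' | h'
    · rcases h'.1 with h1 | h1
      · exact Or.inr (Or.inl ⟨h1, Or.inr h'.2⟩)
      · exact Or.inr (Or.inr (Or.inr ⟨h1, Or.inr h'.2⟩))
    · left
      obtain ⟨hr, hc, hb⟩ := h'
      refine ⟨hr, ?_⟩
      have hT' : IsTT ops (i, r, k, l) := by
        rcases hT with h1 | h1 | h1
        · exact absurd (hr.symm.trans h1.1) (by norm_num)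
        · exact absurd (hr.symm.trans h1.1) (by norm_num)
        · exact h1
      have hT2 := (IsTT_iff hT').2
      clear hT hT'
      rcases hT2 with h4 | h4 | h4 | h4 | h4 | h4
      · right; right; left; exact ⟨hc, Or.inr (Or.inl h4.1)⟩
      · right; right; left; exact ⟨hc, Or.inr (Or.inr (Or.inr (Or.inl h4.1)))⟩
      · exfalso
        have := h4.2.1
        omega
      · right; right; left; exact ⟨hc, Or.inl h4.1⟩
      · right; right; left; exact ⟨hc, Or.inr (Or.inr (Or.inr (Or.inr h4.1)))⟩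
      · right; left
        have hb : b = true := by
          rcases hb with h3 | h3 | h3
          · have := h3.1; omega
          · have := h3.1; omega
          · exact h3.2.2
        exact ⟨hc, h4.2.2.symm, h4.1, hb⟩
    · left
      obtain ⟨hr, hc, hb⟩ := h'
      refine ⟨hr, ?_⟩
      right; right; right; left
      refine ⟨hc.1, hc.2.symm, ?_⟩
      rcases hb with h3 | h3 | h3
      · simp [h3.1]
      · simp [h3.1]
      · simp [h3.1]
    · left
      obtain ⟨hr, hc, hc', hb⟩ := h'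
      refine ⟨hr, ?_⟩
      right; right; right; right; left
      exact ⟨hc, fun h3 => hc' (Prod.ext h3.1 h3.2.symm), hb⟩
  · obtain ⟨h, h'⟩ := h
    simp only [HY] at h h'
    obtain ⟨hi, hr, hk, _, h⟩ := h
    subst hi hk hr
    rcases h' with ⟨h1, h2⟩ | ⟨h1, h2⟩
    · rcases h1 with h1 | h1
      · exact Or.inr (Or.inl ⟨h1, Or.inr h2⟩)
      · exact Or.inr (Or.inr (Or.inr ⟨h1, Or.inr h2⟩))
    · exact Or.inr (Or.inr (Or.inl ⟨h1, Or.inr h2⟩))
  · obtain ⟨h, _⟩ := h
    simp only [HT, Prod.ext_iff] at h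
    obtain ⟨hi, hr, hr', hk, h⟩ := h
    subst hi hk
    left
    refine ⟨hr', ?_⟩
    rcases h with ⟨h1, _, h2⟩ | ⟨h1, h2⟩
    · right; right; right; left
      refine ⟨h1.1, h1.2.symm, ?_⟩
      rcases h2 with h2 | h2 <;> simp [h2]
    · right; right; left
      refine ⟨h1, ?_⟩
      rcases h2 with ⟨_, h2 | h2⟩ | ⟨_, h2 | h2⟩ <;> simp [h2]
  · obtain ⟨h, h'⟩ := h
    obtain ⟨_, hc, hT⟩ := h
    simp only at hc
    obtain ⟨hr, hT2⟩ := IsTT_iff hT
    clear hT
    left
    refine ⟨hr, ?_⟩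
    rcases hT2 with h4 | h4 | h4 | h4 | h4 | h4
    · right; right; left; exact ⟨hc, Or.inr (Or.inl h4.1)⟩
    · right; right; left; exact ⟨hc, Or.inr (Or.inr (Or.inr (Or.inl h4.1)))⟩
    · exfalso
      have := h4.2.1
      omega
    · right; right; left; exact ⟨hc, Or.inl h4.1⟩
    · right; right; left; exact ⟨hc, Or.inr (Or.inr (Or.inr (Or.inr h4.1)))⟩
    · right; left
      exact ⟨hc, h4.2.2.symm, h4.1, h'⟩
  · have h1 := h.1
    clear h
    simp only [HD, Prod.ext_iff] at h1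
    rcases h1 with h1 | ⟨h1, h2, ⟨_, _, h3 | h3 | h3⟩ | ⟨h3, h4 | h4 | h4 | h4 | h4 | h4⟩⟩
    · left
      obtain ⟨_, h1, h2, h3, h4⟩ := h1
      exact ⟨h2, Or.inl ⟨h1, h3, h4⟩⟩
    · right; left; exact ⟨by omega, Or.inl h3.2.2⟩
    · right; right; left; exact ⟨by omega, Or.inl h3.2.2⟩
    · right; right; right; exact ⟨by omega, Or.inl h3.2.2⟩
    · left
      subst h1
      refine ⟨by omega, ?_⟩
      right; right; left
      exact ⟨h4.1, Or.inr (Or.inr (Or.inl h4.2.2.2))⟩
    · left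
      subst h1
      refine ⟨by omega, ?_⟩
      right; right; right; right; right
      exact ⟨by omega, Or.inl h4.1⟩
    · left
      subst h1
      refine ⟨by omega, ?_⟩
      right; right; right; right; right
      exact ⟨by omega, Or.inr (Or.inl ⟨h4.1, by omega⟩)⟩
    · left
      subst h1
      refine ⟨by omega, ?_⟩
      right; right; right; right; right
      exact ⟨by omega, Or.inr (Or.inl ⟨h4.1, by omega⟩)⟩
    · left
      subst h1
      refine ⟨by omega, ?_⟩
      right; right; right; left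
      exact ⟨h4.1, by omega, Or.inl (by omega)⟩
    · left
      subst h1
      refine ⟨by omega, ?_⟩
      right; right; right; right; right
      exact ⟨by omega, Or.inr (Or.inr ⟨h4.1, by omega, by omega⟩)⟩
lemma plt_node {i r k l ei er ek el : ℕ} (h : plt (i, r, k, l) (ei, er, ek, el)) :
    i < ei ∨ (i = ei ∧ r < er) ∨ (i = ei ∧ r = er ∧ (r = 1 ∨ r = 3) ∧ ek < k) ∨
      (i = ei ∧ r = er ∧ ¬ (r = 1 ∨ r = 3) ∧ k < ek) ∨ (i = ei ∧ r = er ∧ k = ek ∧ l < el) := by
  simp only [plt] at h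
  rcases h with h | ⟨h, h1 | ⟨h1, h2 | h2 | h2⟩⟩
  · exact Or.inl h
  · exact Or.inr (Or.inl ⟨h, h1⟩)
  · exact Or.inr (Or.inr (Or.inl ⟨h, h1, h2⟩))
  · exact Or.inr (Or.inr (Or.inr (Or.inl ⟨h, h1, h2⟩)))
  · exact Or.inr (Or.inr (Or.inr (Or.inr ⟨h, h1, h2⟩)))

lemma btw_same {i r k l l' ei er ek el : ℕ} (hl : l < l')
    (h : btw (i, r, k, l) (i, r, k, l') (ei, er, ek, el)) :
    ei = i ∧ er = r ∧ ek = k ∧ l < el ∧ el < l' := by
  rcases h with ⟨h1, h2⟩ | ⟨h1, h2⟩
  · have h1 := plt_node h1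
    have h2 := plt_node h2
    omega
  · have h1 := plt_node h1
    have h2 := plt_node h2
    omega

lemma btw_next {i k l l' ei er ek el : ℕ}
    (h : btw (i, 0, k, l) (i, 0, k + 1, l') (ei, er, ek, el)) :
    ei = i ∧ er = 0 ∧ ((ek = k ∧ l < el) ∨ (ek = k + 1 ∧ el < l')) := by
  rcases h with ⟨h1, h2⟩ | ⟨h1, h2⟩
  · have h1 := plt_node h1
    have h2 := plt_node h2
    omega
  · have h1 := plt_node h1
    have h2 := plt_node h2
    omega


/-- an end in a node of a T row which only passes on the bit -/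
lemma node_pass {b : Bool} {i k l : ℕ} (hi : i ≠ 0) (hc : (opAt ops i).1 < 3)
    (h2 : ¬ ((opAt ops i).1 = 2 ∧ k = (opAt ops i).2)) (hx : X i k = X (i - 1) k)
    (h0 : 0 < l ∨ ((opAt ops i).1 = 1 ∧ k = (opAt ops i).2 + 1))
    (h13 : l ≠ 13 ∨ ((opAt ops i).1 = 1 ∧ k = (opAt ops i).2) ∨
      ((opAt ops i).1 = 2 ∧ k + 1 = (opAt ops i).2))
    (hE : (∃ t', Pg ops X b (i, 0, k, l) t') ∨ (∃ s', Pg ops X b s' (i, 0, k, l))) :
    b = X i k := by
  rcases hE with ⟨t', h⟩ | ⟨s', h⟩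
  · rcases src h with h | h | h | h
    · rcases h.2 with h | h | h | h | h | h
      · exact absurd h.1 hi
      · exact absurd h.1 hi
      · exact absurd ⟨h.1, h.2.1⟩ h2
      · have := h.1; omega
      · have := h.1; omega
      · omega
    · exact absurd h.1 (by norm_num)
    · exact absurd h.1 (by norm_num)
    · exact absurd h.1 (by norm_num)
  · rcases tgt h with h | h | h | h
    · rcases h.2 with h | h | h | h | h | h
      · exact absurd h.1 hi
      · have := h.1; omega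
      · have := h.1; omega
      · exact absurd ⟨h.1, h.2.1⟩ h2
      · rcases h.2.2 with h | h
        · exact h.2
        · rw [hx]; exact h.2
      · omega
    · exact absurd h.1 (by norm_num)
    · exact absurd h.1 (by norm_num)
    · exact absurd h.1 (by norm_num)

/-- an isolated edge of the page `b` is crossed by no edge of the page `b` -/
lemma key_D (hv : ∀ o ∈ ops, o.Valid K) (hrun : IsRun ops X K) {b : Bool} {s t e : Pl}
    (hs : s.2.2.1 < K) (ht : t.2.2.1 < K) (hD : PD ops X b s t) (hb : btw s t e)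
    (hE : (∃ t', Pg ops X b e t') ∨ (∃ s', Pg ops X b s' e)) : False := by
  obtain ⟨i, r, k, l⟩ := s
  obtain ⟨i', r', k', l'⟩ := t
  obtain ⟨ei, er, ek, el⟩ := e
  have hE' := hE.imp (fun ⟨_, h⟩ => src h) (fun ⟨_, h⟩ => tgt h)
  obtain ⟨hD, hp⟩ := hD
  simp only [HD, Prod.ext_iff] at hD hp hs ht
  rcases hD with D | ⟨hi, hr', ⟨hkk, hiL, D | D | D⟩ | ⟨hr0, D⟩⟩
  · -- the isolated edge of the constant
    obtain ⟨⟨h1, h2, h3, h4⟩, h5, h6, h7, h8⟩ := D
    subst h1 h2 h3 h4 h5 h6 h7 h8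
    obtain ⟨g1, g2, g3, g4, g5⟩ := btw_same (by norm_num) hb
    subst g1 g2 g3
    have hel : el = 1 := by clear hE' hp; omega
    subst hel
    have h9 : (opAt ops 0).1 = 9 := by simp [opAt]
    have hbf : b = false := by
      rcases hp with hp | hp | hp | hp | hp
      · exact hp.2
      · exact absurd hp.1 (by norm_num)
      · exact absurd hp.1 (by norm_num)
      · exact absurd (h9.symm.trans hp.2.1) (by norm_num)
      · have := hp.2.1; clear hE' hp; omega
    subst hbf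
    simp [h9] at hE'
  · -- row 1
    obtain ⟨h1, h2, h3⟩ := D
    subst hi hr' hkk h1 h2 h3
    have hbX : b = X i k := by simpa using hp
    obtain ⟨g1, g2, g3, g4, g5⟩ := btw_same (by norm_num) hb
    subst g1 g2 g3 hbX
    clear hp hb hE
    rcases hE' with (h | h | h | h) | (h | h | h | h)
    · exact absurd h.1 (by norm_num)
    · have := h.2; omega
    · exact absurd h.1 (by norm_num)
    · exact absurd h.1 (by norm_num)
    · exact absurd h.1 (by norm_num)
    · rcases h.2 with h | h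
      · omega
      · simp at h
    · exact absurd h.1 (by norm_num)
    · exact absurd h.1 (by norm_num)
  · -- row 2
    obtain ⟨h1, h2, h3⟩ := D
    subst hi hr' hkk h1 h2 h3
    have hbX : b = !X i k := by simpa using hp
    obtain ⟨g1, g2, g3, g4, g5⟩ := btw_same (by norm_num) hb
    subst g1 g2 g3 hbX
    clear hp hb hE
    rcases hE' with (h | h | h | h) | (h | h | h | h)
    · exact absurd h.1 (by norm_num)
    · exact absurd h.1 (by norm_num)
    · have := h.2; omega
    · exact absurd h.1 (by norm_num)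
    · exact absurd h.1 (by norm_num)
    · exact absurd h.1 (by norm_num)
    · rcases h.2 with h | h
      · omega
      · simp at h
    · exact absurd h.1 (by norm_num)
  · -- row 3
    obtain ⟨h1, h2, h3⟩ := D
    subst hi hr' hkk h1 h2 h3
    have hbX : b = X i k := by simpa using hp
    obtain ⟨g1, g2, g3, g4, g5⟩ := btw_same (by norm_num) hb
    subst g1 g2 g3 hbX
    clear hp hb hE
    rcases hE' with (h | h | h | h) | (h | h | h | h)
    · exact absurd h.1 (by norm_num)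
    · exact absurd h.1 (by norm_num)
    · exact absurd h.1 (by norm_num)
    · have := h.2; omega
    · exact absurd h.1 (by norm_num)
    · exact absurd h.1 (by norm_num)
    · exact absurd h.1 (by norm_num)
    · rcases h.2 with h | h
      · omega
      · simp at h
  · -- row 0
    subst hi hr' hr0
    rcases opAt_cases hv i with hc | hc
    · have := hc.1
      clear hp hb hE' hE
      omega
    have hrf := run_facts hrun hc.1 hc.2.1
    have hi0 : i ≠ 0 := by have := hc.1; clear hp hE' hE D; omega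
    have hbX : ((opAt ops i).1 = 3 ∧ b = X i k) ∨ ((opAt ops i).1 < 3 ∧ b = !X i k) := by
      rcases hp with hp | hp | hp | hp | hp
      · exact absurd hp.1.1 hi0
      · exact absurd hp.1 (by norm_num)
      · exact absurd hp.1 (by norm_num)
      · exact Or.inl hp.2
      · exact Or.inr hp.2
    clear hp
    rcases D with D | D | D | D | D | D
    · -- code 3
      obtain ⟨hc3, hkk, h1, h2⟩ := D
      subst hkk h1 h2
      have hb' : b = X i k := by
        rcases hbX with h | h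
        · exact h.2
        · have := h.1; clear hE'; omega
      obtain ⟨g1, g2, g3, g4, g5⟩ := btw_same (by norm_num) hb
      subst g1 g2 g3 hb'
      obtain ⟨hx1, hx2⟩ := hrf.2.2.2 hc3
      clear hbX hb hE hrf
      rcases hE' with (h | h | h | h) | (h | h | h | h)
      · rcases h.2 with h | h | h | h | h | h
        · have := h.1; omega
        · have := h.1; omega
        · have := h.1; omega
        · simp at h
        · have := h.2; omega
        · have := h.1; omega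
      · exact absurd h.1 (by norm_num)
      · exact absurd h.1 (by norm_num)
      · exact absurd h.1 (by norm_num)
      · rcases h.2 with h | h | h | h | h | h
        · have := h.1; omega
        · have h3 := hx1 (opAt ops ei).2 hc.2.2.2.1
          rw [hx2, ← h.2.1, h.2.2.2] at h3
          exact absurd h3 (by simp)
        · have := h.2; omega
        · have := h.1; omega
        · exact h.1 hc3
        · have := h.1; omega
      · exact absurd h.1 (by norm_num)
      · exact absurd h.1 (by norm_num)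
      · exact absurd h.1 (by norm_num)
    · -- code 0
      obtain ⟨hc0, hkc, hkk, h1, h2⟩ := D
      subst hkk h1 h2
      have hb' : b = !X i k := by
        rcases hbX with h | h
        · have := h.1; omega
        · exact h.2
      obtain ⟨g1, g2, g3, g4, g5⟩ := btw_same (by norm_num) hb
      subst g1 g2 g3
      have hx := hrf.1 hc0 ek hs hkc
      clear hE' hbX hrf hb
      have h := node_pass hi0 (by omega) (fun h => by have := h.1; omega) hx (Or.inl g4)
        (Or.inl (by omega)) hE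
      rw [h] at hb'
      simp at hb'
    · -- code 1, the two columns
      obtain ⟨hc1, hkc, hkk, h1, h2⟩ := D
      subst hkk h1 h2
      have hb' : b = !X i k := by
        rcases hbX with h | h
        · have := h.1; omega
        · exact h.2
      obtain ⟨g1, g2, g3⟩ := btw_next hb
      subst g1 g2
      obtain ⟨hx1, hx2⟩ := hrf.2.1 hc1
      clear hE' hbX hrf hb
      rcases g3 with ⟨g3, g4⟩ | ⟨g3, g4⟩
      · subst g3
        have hx := hx1 ek hs
        have h := node_pass hi0 (by omega) (fun h => by have := h.1; omega) hx (Or.inl g4)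
          (Or.inr (Or.inl ⟨hc1, hkc⟩)) hE
        rw [h] at hb'
        simp at hb'
      · subst g3
        have hx := hx1 (k + 1) ht
        have h := node_pass hi0 (by omega) (fun h => by have := h.1; omega) hx
          (Or.inr ⟨hc1, by omega⟩) (Or.inl (by omega)) hE
        rw [← hkc] at hx2
        rw [h, hx, ← hx2, ← hx1 k hs] at hb'
        simp at hb'
    · -- code 1, another column
      obtain ⟨hc1, hkc, hkc', hkk, h1, h2⟩ := D
      subst hkk h1 h2
      have hb' : b = !X i k := by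
        rcases hbX with h | h
        · have := h.1; omega
        · exact h.2
      obtain ⟨g1, g2, g3, g4, g5⟩ := btw_same (by norm_num) hb
      subst g1 g2 g3
      have hx := (hrf.2.1 hc1).1 ek hs
      clear hE' hbX hrf hb
      have h := node_pass hi0 (by omega) (fun h => by have := h.1; omega) hx (Or.inl g4)
        (Or.inl (by omega)) hE
      rw [h] at hb'
      simp at hb'
    · -- code 2, the column and its left neighbour
      obtain ⟨hc2, hkc, hkk, h1, h2⟩ := D
      subst hkk h1 h2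
      have hb' : b = !X i k := by
        rcases hbX with h | h
        · have := h.1; omega
        · exact h.2
      obtain ⟨g1, g2, g3⟩ := btw_next hb
      subst g1 g2
      have hx1 := hrf.2.2.1 hc2
      clear hbX hrf hb
      rcases g3 with ⟨g3, g4⟩ | ⟨g3, g4⟩
      · subst g3
        have hx := hx1 ek hs (by omega)
        clear hE'
        have h := node_pass hi0 (by omega) (fun h => by have := h.2; omega) hx (Or.inl g4)
          (Or.inr (Or.inr ⟨hc2, hkc⟩)) hE
        rw [h] at hb'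
        simp at hb'
      · subst g3
        clear hE
        rcases hE' with (h | h | h | h) | (h | h | h | h)
        · rcases h.2 with h | h | h | h | h | h
          · have := h.1; omega
          · have := h.1; omega
          · have h4 := h.2.2.2
            rw [Nat.add_sub_cancel] at h4
            rw [h4] at hb'
            simp at hb'
          · have := h.1; omega
          · have := h.1; omega
          · have := h.2; omega
        · exact absurd h.1 (by norm_num)
        · exact absurd h.1 (by norm_num)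
        · exact absurd h.1 (by norm_num)
        · rcases h.2 with h | h | h | h | h | h
          · have := h.1; omega
          · have := h.1; omega
          · have := h.1; omega
          · have := h.2.2; omega
          · exact h.2.1 ⟨hc2, by omega⟩
          · have := h.1; omega
        · exact absurd h.1 (by norm_num)
        · exact absurd h.1 (by norm_num)
        · exact absurd h.1 (by norm_num)
    · -- code 2, another column
      obtain ⟨hc2, hkc, hkc', hkk, h1, h2⟩ := D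
      subst hkk h1 h2
      have hb' : b = !X i k := by
        rcases hbX with h | h
        · have := h.1; omega
        · exact h.2
      obtain ⟨g1, g2, g3, g4, g5⟩ := btw_same (by norm_num) hb
      subst g1 g2 g3
      have hx := hrf.2.2.1 hc2 ek hs hkc'
      clear hE' hbX hrf hb
      have h := node_pass hi0 (by omega) (fun h => hkc' h.2) hx (Or.inl g4)
        (Or.inl (by omega)) hE
      rw [h] at hb'
      simp at hb'

lemma HD_src {i r k l : ℕ} {t : Pl} (h : HD ops (i, r, k, l) t) :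
    (r = 0 ∧ (l = 0 ∨ l = 5)) ∨ (r = 1 ∧ l = 2) ∨ (r = 2 ∧ l = 2) ∨ (r = 3 ∧ l = 0) := by
  simp only [HD, Prod.ext_iff] at h
  rcases h with h | ⟨_, _, ⟨_, _, h | h | h⟩ | ⟨h0, h | h | h | h | h | h⟩⟩
  · exact Or.inl ⟨h.1.2.1, Or.inl h.1.2.2.2⟩
  · exact Or.inr (Or.inl ⟨h.1, h.2.1⟩)
  · exact Or.inr (Or.inr (Or.inl ⟨h.1, h.2.1⟩))
  · exact Or.inr (Or.inr (Or.inr ⟨h.1, h.2.1⟩))
  · exact Or.inl ⟨h0, Or.inr h.2.2.1⟩
  · exact Or.inl ⟨h0, Or.inl h.2.2.2.1⟩
  · exact Or.inl ⟨h0, Or.inl h.2.2.2.1⟩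
  · exact Or.inl ⟨h0, Or.inl h.2.2.2.2.1⟩
  · exact Or.inl ⟨h0, Or.inl h.2.2.2.1⟩
  · exact Or.inl ⟨h0, Or.inl h.2.2.2.2.1⟩

lemma HY_src {i r k l : ℕ} {t : Pl} (h : HY ops (i, r, k, l) t) :
    (r = 1 ∧ (l = 0 ∨ l = 1)) ∨ (r = 2 ∧ (l = 0 ∨ l = 1 ∨ l = 6 ∨ l = 7)) ∨
      (r = 3 ∧ (l = 4 ∨ l = 5)) := by
  simp only [HY] at h
  obtain ⟨_, _, _, _, h | h | h | h⟩ := h
  · exact Or.inl ⟨h.1, h.2.2⟩
  · refine Or.inr (Or.inl ⟨h.1, ?_⟩)
    rcases h.2.2 with h | h <;> simp [h]
  · refine Or.inr (Or.inl ⟨h.1, ?_⟩)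
    rcases h.2.2 with h | h <;> simp [h]
  · exact Or.inr (Or.inr ⟨h.1, h.2.2⟩)

lemma HT_src {i r k l : ℕ} {t : Pl} (h : HT ops (i, r, k, l) t) :
    r = 0 ∧ (l = 1 ∨ l = 6 ∨ l = 9) := by
  simp only [HT] at h
  obtain ⟨_, h0, _, _, h | ⟨_, h | h⟩⟩ := h
  · exact ⟨h0, Or.inl h.2.1⟩
  · exact ⟨h0, Or.inr (Or.inl h.1)⟩
  · exact ⟨h0, Or.inr (Or.inr h.1)⟩

lemma HD_Pg {b : Bool} {s t : Pl} (hD : HD ops s t) (h : Pg ops X b s t) : PD ops X b s t := by
  obtain ⟨i, r, k, l⟩ := s
  have h0 := HD_src hD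
  rcases h with h | h | h | h | h
  · have h1 := HR_src h.1
    clear h hD
    omega
  · have h1 := HY_src h.1
    clear h hD
    omega
  · have h1 := HT_src h.1
    clear h hD
    omega
  · have h1 := h.1.1
    simp only [Prod.ext_iff] at h1
    clear h hD
    omega
  · exact h

lemma pcross_symm {a b c d : Pl} (h : PCross a b c d) : PCross c d a b := by
  unfold PCross btw outs at *
  generalize plt a c = p1 at *
  generalize plt c b = p2 at *
  generalize plt b c = p3 at *
  generalize plt c a = p4 at *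
  generalize plt d a = p5 at *
  generalize plt d b = p6 at *
  generalize plt a d = p7 at *
  generalize plt b d = p8 at *
  tauto


theorem sg_cD : M_cD := by
  intro K ops X hv hrun b s t s' t' hs ht hs' ht' hφ h1 h2 hcross
  exfalso
  rcases hφ with hD | hD
  · have hPD := HD_Pg hD h1
    rcases hcross with ⟨hb, _⟩ | ⟨hb, _⟩
    · exact key_D hv hrun hs.2.2.1 ht.2.2.1 hPD hb (Or.inl ⟨t', h2⟩)
    · exact key_D hv hrun hs.2.2.1 ht.2.2.1 hPD hb (Or.inr ⟨s', h2⟩)
  · have hPD := HD_Pg hD h2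
    rcases pcross_symm hcross with ⟨hb, _⟩ | ⟨hb, _⟩
    · exact key_D hv hrun hs'.2.2.1 ht'.2.2.1 hPD hb (Or.inl ⟨t, h1⟩)
    · exact key_D hv hrun hs'.2.2.1 ht'.2.2.1 hPD hb (Or.inr ⟨s, h1⟩)

/-- only `(0, 0, 0, 0)` is left of the constant -/
lemma plt_p {i r k l : ℕ} (h : plt (i, r, k, l) (0, 0, 0, 1)) : r = 0 ∧ l = 0 := by
  have h1 := plt_node h
  clear h
  omega

lemma cross_p {a b t : Pl} (ha : ¬ plt a (0, 0, 0, 1)) (hb : ¬ plt b (0, 0, 0, 1))
    (h : PCross a b (0, 0, 0, 1) t) : btw a b t := by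
  rcases h with ⟨h1, _⟩ | ⟨h1, _⟩
  · rcases h1 with ⟨h1, _⟩ | ⟨h1, _⟩
    · exact absurd h1 ha
    · exact absurd h1 hb
  · exact h1

/-- in the rows ML, S, MR of a block there is no place between them in a T row -/
lemma no_T {i r r' k k' l l' i₀ k₀ l₀ : ℕ} (hr : 1 ≤ r) (hr' : 1 ≤ r')
    (h : btw (i, r, k, l) (i, r', k', l') (i₀, 0, k₀, l₀)) : False := by
  rcases h with ⟨h1, h2⟩ | ⟨h1, h2⟩
  · have h1 := plt_node h1
    have h2 := plt_node h2
    omega
  · have h1 := plt_node h1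
    have h2 := plt_node h2
    omega

/-- the block of a place of a T row under a regular edge to a T row -/
lemma T_block {i i' r k k' l l' i₀ k₀ l₀ : ℕ} (hr : 1 ≤ r) (hi : i' = i ∨ i' = i + 1)
    (h : btw (i, r, k, l) (i', 0, k', l') (i₀, 0, k₀, l₀)) : i₀ = i' := by
  rcases h with ⟨h1, h2⟩ | ⟨h1, h2⟩
  · have h1 := plt_node h1
    have h2 := plt_node h2
    omega
  · have h1 := plt_node h1
    have h2 := plt_node h2
    omega

/-- regular edges to a T row -/
lemma HR_T {i r k l i' k' l' : ℕ} (h : HR ops (i, r, k, l) (i', 0, k', l')) :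
    i ≤ ops.length ∧
      ((r = 2 ∧ (l = 0 ∨ l = 1 ∨ l = 6 ∨ l = 7) ∧ (i' = i ∨ i' = i + 1)) ∨
       (r = 3 ∧ i' = i + 1 ∧ ¬ (l' = 8 ∧ k = k') ∧
          ((l = 4 ∧ (k' < k ∨ (k' = k ∧ l' ≤ 11))) ∨
           (l = 5 ∧ (k' < k ∨ (k' = k ∧ l' < 11))))) ∨
       (r = 1 ∧ i' = i ∧
          ((l = 1 ∧ (k < k' ∨ (k = k' ∧ 4 ≤ l'))) ∨
           (l = 0 ∧ (k < k' ∨ (k = k' ∧ 4 < l')))))) := by
  simp only [HR] at h
  obtain ⟨h0, h | h | h⟩ := h
  · exact absurd h.1 (by norm_num)
  · exact absurd h.1 (by norm_num)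
  · exact ⟨h0, h.2⟩

/-- places strictly between two places of a T row -/
lemma btw_row {i k k' l l' i₀ k₀ l₀ : ℕ}
    (h : btw (i, 0, k, l) (i, 0, k', l') (i₀, 0, k₀, l₀)) : i₀ = i := by
  rcases h with ⟨h1, h2⟩ | ⟨h1, h2⟩
  · have h1 := plt_node h1
    have h2 := plt_node h2
    omega
  · have h1 := plt_node h1
    have h2 := plt_node h2
    omega

lemma btw_col {i k l l' i₀ k₀ l₀ : ℕ}
    (h : btw (i, 0, k, l) (i, 0, k, l') (i₀, 0, k₀, l₀)) :
    k₀ = k ∧ ((l < l₀ ∧ l₀ < l') ∨ (l' < l₀ ∧ l₀ < l)) := by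
  rcases h with ⟨h1, h2⟩ | ⟨h1, h2⟩
  · have h1 := plt_node h1
    have h2 := plt_node h2
    omega
  · have h1 := plt_node h1
    have h2 := plt_node h2
    omega

/-- moving the target of a regular edge in a row of code 3 -/
lemma HR_move {s : Pl} {i k l k' l' : ℕ} (h : HR ops s (i, 0, k, l))
    (hc : (opAt ops i).1 = 3) (hT : IsTT ops (i, 0, k', l'))
    (hb : btw s (i, 0, k, l) (i, 0, k', l')) : PR ops X true s (i, 0, k', l') := by
  obtain ⟨si, sr, sk, sl⟩ := s
  obtain ⟨h0, h⟩ := HR_T h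
  have hT2 := (IsTT_iff hT).2
  have h8 : l' ≠ 8 := by
    rintro rfl
    rcases hT2 with h | h | h | h | h | h
    · exact absurd h.1 (by norm_num)
    · exact absurd h.1 (by norm_num)
    · have := h.2.1; omega
    · exact absurd h.1 (by norm_num)
    · exact absurd h.1 (by norm_num)
    · exact absurd h.1 (by norm_num)
  clear hT2
  have hpage : ¬ (sr = 1 ∧ sl = 1 ∧ sk = k' ∧ l' = 4) → ¬ (sr = 3 ∧ sl = 4 ∧ sk = k' ∧ l' = 11) →
      HR ops (si, sr, sk, sl) (i, 0, k', l') → PR ops X true (si, sr, sk, sl) (i, 0, k', l') := by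
    intro n1 n2 hHR
    refine ⟨hHR, Or.inr (Or.inl ⟨rfl, hc, ?_⟩)⟩
    by_cases h4 : l' = 4
    · left
      exact ⟨h4, Or.inr ⟨fun h => n1 ⟨h.1, h.2.1, h.2.2, h4⟩, Or.inl rfl⟩⟩
    by_cases h11 : l' = 11
    · right; left
      exact ⟨h11, Or.inr ⟨fun h => n2 ⟨h.1, h.2.1, h.2.2, h11⟩, Or.inl rfl⟩⟩
    · right; right
      exact ⟨h4, h11, rfl⟩
  rcases h with h | h | h
  · -- row S
    obtain ⟨hr, hl, hi⟩ := h
    subst hr
    apply hpage
    · exact fun h => absurd h.1 (by norm_num)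
    · exact fun h => absurd h.1 (by norm_num)
    · simp only [HR]
      exact ⟨h0, Or.inr (Or.inr ⟨hT, Or.inl ⟨trivial, hl, hi⟩⟩)⟩
  · -- row MR
    obtain ⟨hr, hi, _, hl⟩ := h
    subst hr hi
    have hlt : k' < k ∨ (k' = k ∧ l' < l) := by
      rcases hb with ⟨h1, h2⟩ | ⟨h1, h2⟩
      · have h2 := plt_node h2
        clear h1 hl hpage hT
        omega
      · have h2 := plt_node h2
        clear h1 hl hpage hT
        omega
    apply hpage
    · exact fun h => absurd h.1 (by norm_num)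
    · rintro ⟨_, h1, h2, h3⟩
      clear hpage hT hb
      omega
    · simp only [HR]
      refine ⟨h0, Or.inr (Or.inr ⟨hT, Or.inr (Or.inl ⟨trivial, trivial, fun h => h8 h.1, ?_⟩)⟩)⟩
      clear hpage hT hb
      rcases hl with ⟨h1, h2⟩ | ⟨h1, h2⟩
      · exact Or.inl ⟨h1, by omega⟩
      · exact Or.inr ⟨h1, by omega⟩
  · -- row ML
    obtain ⟨hr, hi, hl⟩ := h
    subst hr hi
    have hlt : k < k' ∨ (k = k' ∧ l < l') := by
      rcases hb with ⟨h1, h2⟩ | ⟨h1, h2⟩
      · have h1 := plt_node h1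
        clear h2 hl hpage hT
        omega
      · have h1 := plt_node h1
        clear h2 hl hpage hT
        omega
    apply hpage
    · rintro ⟨_, h1, h2, h3⟩
      clear hpage hT hb
      omega
    · exact fun h => absurd h.1 (by norm_num)
    · simp only [HR]
      refine ⟨h0, Or.inr (Or.inr ⟨hT, Or.inr (Or.inr ⟨trivial, trivial, ?_⟩)⟩)⟩
      clear hpage hT hb
      rcases hl with ⟨h1, h2⟩ | ⟨h1, h2⟩
      · exact Or.inl ⟨h1, by omega⟩
      · exact Or.inr ⟨h1, by omega⟩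

lemma HP_true {b : Bool} {s t : Pl} (h : HP ops s t) (h' : Pg ops X b s t) : b = true := by
  obtain ⟨h1, _, _⟩ := h
  subst h1
  rcases src h' with h | h | h | h
  · have h9 : (opAt ops 0).1 = 9 := by simp [opAt]
    rcases h.2 with h | h | h | h | h | h
    · exact h.2.2.2
    · have := h.2.2; omega
    · have := h.1; omega
    · have := h.1; omega
    · have := h.1; omega
    · have := h.1; omega
  · exact absurd h.1 (by norm_num)
  · exact absurd h.1 (by norm_num)
  · exact absurd h.1 (by norm_num)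

/-- a place of a T row between the ends of an edge which is neither isolated nor of the constant
is in the same row as the target -/
lemma same_row {s t : Pl} {i₀ k₀ l₀ : ℕ} (h : HR ops s t ∨ HY ops s t ∨ HT ops s t)
    (hb : btw s t (i₀, 0, k₀, l₀)) : t.1 = i₀ ∧ t.2.1 = 0 := by
  obtain ⟨i, r, k, l⟩ := s
  obtain ⟨i', r', k', l'⟩ := t
  rcases h with h | h | h
  · have hs := HR_src h
    have hr : 1 ≤ r := by clear h hb; omega
    have h' := h
    simp only [HR] at h'
    rcases h'.2 with h1 | h1 | h1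
    · obtain ⟨h2, _, h3, _⟩ := h1
      subst h2 h3
      exact (no_T hr (by norm_num) hb).elim
    · obtain ⟨h2, _, h3, _⟩ := h1
      subst h2 h3
      exact (no_T hr (by norm_num) hb).elim
    · have h2 := (IsTT_iff h1.1).1
      subst h2
      have h3 := (HR_T h).2
      have h4 : i' = i ∨ i' = i + 1 := by
        rcases h3 with h3 | h3 | h3
        · exact h3.2.2
        · exact Or.inr h3.2.1
        · exact Or.inl h3.2.1
      exact ⟨(T_block hr h4 hb).symm, rfl⟩
  · have hs := HY_src h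
    simp only [HY] at h
    obtain ⟨h1, h2, h3, _⟩ := h
    subst h1 h2 h3
    have hr : 1 ≤ r := by clear hb; omega
    exact (no_T hr hr hb).elim
  · simp only [HT] at h
    obtain ⟨h1, h2, h3, h4, _⟩ := h
    subst h1 h2 h3 h4
    exact ⟨(btw_row hb).symm, rfl⟩

/-- the targets of the regular and local edges of a row of code 3 are places of targets -/
lemma tgt_TT {s t : Pl} (h : HR ops s t ∨ HT ops s t) (ht : t.2.1 = 0)
    (hv : ∀ o ∈ ops, o.Valid K) (hc : (opAt ops t.1).1 = 3) : IsTT ops t := by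
  obtain ⟨i, r, k, l⟩ := s
  obtain ⟨i', r', k', l'⟩ := t
  simp only at ht hc
  subst ht
  rcases h with h | h
  · simp only [HR] at h
    rcases h.2 with h1 | h1 | h1
    · exact absurd h1.1 (by norm_num)
    · exact absurd h1.1 (by norm_num)
    · exact h1.1
  · simp only [HT, Prod.ext_iff] at h
    obtain ⟨h1, h2, _, h3, h⟩ := h
    subst h1 h2 h3
    have hi : 1 ≤ i ∧ i ≤ ops.length := by
      rcases opAt_cases hv i with h4 | h4
      · have := h4.1
        omega
      · exact ⟨h4.1, h4.2.1⟩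
    simp only [IsTT, Prod.ext_iff]
    refine ⟨trivial, ?_⟩
    rcases h with ⟨h4, _⟩ | ⟨_, ⟨_, h4 | h4⟩ | ⟨_, h4 | h4⟩⟩
    · have := h4.1
      omega
    · exact Or.inr (Or.inr (Or.inr (Or.inl ⟨h4, hc⟩)))
    · exact Or.inl ⟨h4, hi.2⟩
    · exact Or.inr (Or.inl ⟨h4, hi.1, by omega⟩)
    · exact Or.inr (Or.inr (Or.inr (Or.inr (Or.inl ⟨h4, hc⟩))))

/-- the ends of the regular and local edges are not left of the constant -/
lemma not_left {s t : Pl} (h : HR ops s t ∨ HY ops s t ∨ HT ops s t) :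
    ¬ plt s (0, 0, 0, 1) ∧ ¬ plt t (0, 0, 0, 1) := by
  obtain ⟨i, r, k, l⟩ := s
  obtain ⟨i', r', k', l'⟩ := t
  constructor
  · intro h1
    obtain ⟨h2, h3⟩ := plt_p h1
    clear h1
    rcases h with h | h | h
    · have h4 := HR_src h
      clear h
      omega
    · have h4 := HY_src h
      clear h
      omega
    · have h4 := HT_src h
      clear h
      omega
  · intro h1
    obtain ⟨h2, h3⟩ := plt_p h1
    clear h1
    subst h2 h3
    rcases h with h | h | h
    · rcases HR_tgt h with h4 | h4 | h4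
      · exact absurd h4.1 (by norm_num)
      · exact absurd h4.1 (by norm_num)
      · rcases (IsTT_iff h4).2 with h5 | h5 | h5 | h5 | h5 | h5
        all_goals exact absurd h5.1 (by norm_num)
    · have h4 := HY_src h
      simp only [HY] at h
      obtain ⟨_, h5, _⟩ := h
      omega
    · simp only [HT] at h
      obtain ⟨_, _, _, _, ⟨_, _, h | h⟩ | ⟨_, ⟨_, h | h⟩ | ⟨_, h | h⟩⟩⟩ := h
      all_goals exact absurd h (by norm_num)

theorem sg_cP : M_cP := by
  intro K ops X hv hrun b s t s' t' hs ht hs' ht' hφ h1 h2 hcross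
  -- isolated edges
  have noD : ¬ PD ops X b s t := by
    intro hPD
    rcases hcross with ⟨hb, _⟩ | ⟨hb, _⟩
    · exact key_D hv hrun hs.2.2.1 ht.2.2.1 hPD hb (Or.inl ⟨t', h2⟩)
    · exact key_D hv hrun hs.2.2.1 ht.2.2.1 hPD hb (Or.inr ⟨s', h2⟩)
  have noD' : ¬ PD ops X b s' t' := by
    intro hPD
    rcases pcross_symm hcross with ⟨hb, _⟩ | ⟨hb, _⟩
    · exact key_D hv hrun hs'.2.2.1 ht'.2.2.1 hPD hb (Or.inl ⟨t, h1⟩)
    · exact key_D hv hrun hs'.2.2.1 ht'.2.2.1 hPD hb (Or.inr ⟨s, h1⟩)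
  rcases hφ with hP | hP
  · -- the first edge is an edge of the constant
    have hbt := HP_true hP h1
    subst hbt
    obtain ⟨he, hc, hT⟩ := hP
    subst he
    obtain ⟨i, r, k, l⟩ := t
    have hr := (IsTT_iff hT).1
    subst hr
    have hsym := pcross_symm hcross
    have main : HR ops s' t' ∨ HY ops s' t' ∨ HT ops s' t' →
        Pg ops X true (0, 0, 0, 1) t' := by
      intro h
      obtain ⟨n1, n2⟩ := not_left h
      have hb := cross_p n1 n2 hsym
      obtain ⟨g1, g2⟩ := same_row h hb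
      have hc' : (opAt ops t'.1).1 = 3 := by rw [g1]; exact hc
      have h' : HR ops s' t' ∨ HT ops s' t' := by
        rcases h with h | h | h
        · exact Or.inl h
        · exfalso
          obtain ⟨i', r', k', l'⟩ := s'
          have h4 := HY_src h
          simp only [HY] at h
          obtain ⟨_, h5, _⟩ := h
          omega
        · exact Or.inr h
      exact Or.inr (Or.inr (Or.inr (Or.inl ⟨⟨rfl, hc', tgt_TT h' g2 hv hc'⟩, rfl⟩)))
    rcases h2 with h | h | h | h | h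
    · exact main (Or.inl h.1)
    · exact main (Or.inr (Or.inl h.1))
    · exact main (Or.inr (Or.inr h.1))
    · obtain ⟨⟨he, hc', hT'⟩, _⟩ := h
      exact Or.inr (Or.inr (Or.inr (Or.inl ⟨⟨rfl, hc', hT'⟩, rfl⟩)))
    · exact absurd h noD'
  · -- the second edge is an edge of the constant
    have hbt := HP_true hP h2
    subst hbt
    obtain ⟨he, hc, hT⟩ := hP
    subst he
    obtain ⟨i, r, k, l⟩ := t'
    have hr := (IsTT_iff hT).1
    subst hr
    simp only at hc
    rcases h1 with h | h | h | h | h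
    · obtain ⟨n1, n2⟩ := not_left (Or.inl h.1)
      have hb := cross_p n1 n2 hcross
      obtain ⟨g1, g2⟩ := same_row (Or.inl h.1) hb
      obtain ⟨i', r', k', l'⟩ := t
      simp only at g1 g2
      subst g1 g2
      exact Or.inl (HR_move h.1 hc hT hb)
    · exfalso
      obtain ⟨n1, n2⟩ := not_left (Or.inr (Or.inl h.1))
      have hb := cross_p n1 n2 hcross
      obtain ⟨g1, g2⟩ := same_row (Or.inr (Or.inl h.1)) hb
      obtain ⟨i', r', k', l'⟩ := s
      have h4 := HY_src h.1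
      obtain ⟨h, _⟩ := h
      simp only [HY] at h
      obtain ⟨_, h5, _⟩ := h
      omega
    · obtain ⟨n1, n2⟩ := not_left (Or.inr (Or.inr h.1))
      have hb := cross_p n1 n2 hcross
      obtain ⟨g1, g2⟩ := same_row (Or.inr (Or.inr h.1)) hb
      obtain ⟨i', r', k', l'⟩ := t
      obtain ⟨si, sr, sk, sl⟩ := s
      simp only at g1 g2
      subst g1 g2
      obtain ⟨h, hp⟩ := h
      simp only [HT, Prod.ext_iff] at h hp
      obtain ⟨h5, h6, _, h7, h⟩ := h
      subst h5 h6 h7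
      obtain ⟨g3, g4⟩ := btw_col hb
      subst g3
      rcases h with ⟨h8, _⟩ | ⟨_, h⟩
      · have := h8.1
        omega
      · refine Or.inr (Or.inr (Or.inl ⟨?_, Or.inr ⟨hc, ?_⟩⟩))
        · simp only [HT]
          refine ⟨trivial, trivial, trivial, trivial, Or.inr ⟨hc, ?_⟩⟩
          have hT2 := (IsTT_iff hT).2
          have hl : l = 4 ∨ l = 11 ∨ l = 8 ∨ l = 3 ∨ l = 12 ∨ l = 7 := by
            rcases hT2 with h9 | h9 | h9 | h9 | h9 | h9
            · exact Or.inl h9.1
            · exact Or.inr (Or.inl h9.1)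
            · exact Or.inr (Or.inr (Or.inl h9.1))
            · exact Or.inr (Or.inr (Or.inr (Or.inl h9.1)))
            · exact Or.inr (Or.inr (Or.inr (Or.inr (Or.inl h9.1))))
            · exact Or.inr (Or.inr (Or.inr (Or.inr (Or.inr h9.1))))
          clear hT2 hT hb hcross noD noD' h2 hp
          rcases h with ⟨h9, h10⟩ | ⟨h9, h10⟩
          · left
            exact ⟨h9, by omega⟩
          · right
            exact ⟨h9, by omega⟩
        · rcases hp with hp | hp
          · have := hp.1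
            omega
          · exact hp.2
    · obtain ⟨⟨he, _, _⟩, _⟩ := h
      subst he
      exact Or.inr (Or.inr (Or.inr (Or.inl ⟨⟨rfl, hc, hT⟩, rfl⟩)))
    · exact absurd h noD

end Pool.Agent.Helper99.SC.CPD
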